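import Pool.Agent.Q218.BL.Pair

set_option autoImplicit false

open MeasureTheory ProbabilityTheory Filter Topology
open scoped ENNReal NNReal

namespace Pool.Agent.Results.MP_29ad01_pr.GaussianTail

universe u

/-- The defining data of dynamical Brownian last passage percolation on a probability space
`(Ω, P)`: `B i t x` is the value at the position `x ≥ 0` of line `i` at the dynamical time
`t ≥ 0`.  The field is Gaussian, centred, has covariance `1{i=j} e^{-|s-t|} min(x,y)`, and for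
every line and every time the path `x ↦ B i t x` is almost surely continuous (so that at each fixed
time the lines are independent standard Brownian motions). -/
structure IsDynamicalBrownianLines {Ω : Type u} [MeasurableSpace Ω]
    (B : ℕ → ℝ≥0 → ℝ≥0 → Ω → ℝ) (P : Measure Ω) : Prop where
  gaussian : IsGaussianProcess (fun q : ℕ × ℝ≥0 × ℝ≥0 => B q.1 q.2.1 q.2.2) P
  mean_zero : ∀ i t x, ∫ ω, B i t x ω ∂P = 0
  covariance : ∀ i j s t x y, ∫ ω, B i s x ω * B j t y ω ∂P =
    (if i = j then 1 else 0) * Real.exp (-|(s : ℝ) - (t : ℝ)|) * min (x : ℝ) (y : ℝ)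
  continuous_paths : ∀ i t, ∀ᵐ ω ∂P, Continuous fun x => B i t x ω

/-- Up-right paths from `(0,0)` to `(n,n)`: `0 = z_{-1} ≤ z_0 ≤ ⋯ ≤ z_n = n`; the entry `z k` of the
Lean path is the `z_{k-1}` of the text. -/
def paths (n : ℕ) : Set (Fin (n + 2) → ℝ≥0) :=
  {z | Monotone z ∧ z 0 = 0 ∧ z (Fin.last (n + 1)) = n}

/-- The weight `∑_{i=0}^n (b_i(z_i) - b_i(z_{i-1}))` of a path in the environment `b`. -/
def weight (n : ℕ) (b : ℕ → ℝ≥0 → ℝ) (z : Fin (n + 2) → ℝ≥0) : ℝ :=
  ∑ i : Fin (n + 1), (b i (z i.succ) - b i (z i.castSucc))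

/-- The last passage time from `(0,0)` to `(n,n)` in the environment `b`. -/
noncomputable def lpp (n : ℕ) (b : ℕ → ℝ≥0 → ℝ) : ℝ :=
  sSup (weight n b '' paths n)

/-! ### Pathwise facts -/

lemma paths_nonempty (n : ℕ) : (paths n).Nonempty := by
  refine ⟨fun k => if k = 0 then 0 else (n : ℝ≥0), ?_, by simp, by simp [Fin.ext_iff]⟩
  intro a b hab
  dsimp only
  split_ifs with h1 h2
  · exact le_rfl
  · exact zero_le
  · subst_vars
    exact absurd (le_antisymm hab (Fin.zero_le _)) h1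
  · exact le_rfl

lemma paths_le {n : ℕ} {z : Fin (n + 2) → ℝ≥0} (hz : z ∈ paths n) (i : Fin (n + 2)) :
    z i ≤ n := by
  rw [← hz.2.2]
  exact hz.1 (Fin.le_last i)

lemma isClosed_paths (n : ℕ) : IsClosed (paths n) := by
  have h1 : IsClosed {z : Fin (n + 2) → ℝ≥0 | Monotone z} := by
    have : {z : Fin (n + 2) → ℝ≥0 | Monotone z} =
        ⋂ i : Fin (n + 2), ⋂ j : Fin (n + 2), ⋂ _ : i ≤ j, {z | z i ≤ z j} := by
      ext z
      simp only [Set.mem_iInter]
      exact ⟨fun h i j hij => h hij, fun h i j hij => h i j hij⟩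
    rw [this]
    exact isClosed_iInter fun i => isClosed_iInter fun j => isClosed_iInter fun _ =>
      isClosed_le (continuous_apply i) (continuous_apply j)
  exact h1.inter ((isClosed_eq (continuous_apply _) continuous_const).inter
    (isClosed_eq (continuous_apply _) continuous_const))

lemma isCompact_paths (n : ℕ) : IsCompact (paths n) := by
  have hK : IsCompact (Set.pi Set.univ fun _ : Fin (n + 2) => Set.Icc (0 : ℝ≥0) n) :=
    isCompact_univ_pi fun _ => isCompact_Icc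
  refine hK.of_isClosed_subset (isClosed_paths n) ?_
  intro z hz i _
  exact ⟨zero_le, paths_le hz i⟩

lemma continuous_weight {n : ℕ} {b : ℕ → ℝ≥0 → ℝ} (hb : ∀ i, Continuous (b i)) :
    Continuous (weight n b) := by
  unfold weight
  refine continuous_finsetSum _ fun i _ => ?_
  exact ((hb i).comp (continuous_apply i.succ)).sub ((hb i).comp (continuous_apply i.castSucc))

instance (n : ℕ) : Nonempty (paths n) := (paths_nonempty n).to_subtype

/-- a dense sequence of paths -/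
noncomputable def q (n : ℕ) (k : ℕ) : Fin (n + 2) → ℝ≥0 :=
  (TopologicalSpace.denseSeq (paths n) k : paths n)

lemma q_mem (n k : ℕ) : q n k ∈ paths n := (TopologicalSpace.denseSeq (paths n) k).2

/-- the maximum of the weights of the first `N + 1` paths of the dense sequence -/
noncomputable def lppN (n N : ℕ) (b : ℕ → ℝ≥0 → ℝ) : ℝ :=
  Q218.BL.fm (fun i : Fin (N + 1) => weight n b (q n i))

lemma bdd {n : ℕ} {b : ℕ → ℝ≥0 → ℝ} (hb : ∀ i, Continuous (b i)) :
    BddAbove (weight n b '' paths n) :=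
  ((isCompact_paths n).image (continuous_weight hb)).bddAbove

lemma lppN_le {n : ℕ} {b : ℕ → ℝ≥0 → ℝ} (hb : ∀ i, Continuous (b i)) (N : ℕ) :
    lppN n N b ≤ lpp n b := by
  rw [lppN, Q218.BL.fm_eq]
  exact le_csSup (bdd hb) ⟨_, q_mem n _, rfl⟩

lemma tendsto_lppN {n : ℕ} {b : ℕ → ℝ≥0 → ℝ} (hb : ∀ i, Continuous (b i)) :
    Tendsto (fun N => lppN n N b) atTop (𝓝 (lpp n b)) := by
  rw [tendsto_order]
  constructor
  · intro a ha
    obtain ⟨_, ⟨z, hz, rfl⟩, hz2⟩ := exists_lt_of_lt_csSup ((paths_nonempty n).image _) ha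
    have ho : IsOpen {y : paths n | a < weight n b y} :=
      isOpen_lt continuous_const ((continuous_weight hb).comp continuous_subtype_val)
    obtain ⟨k, hk⟩ := (TopologicalSpace.denseRange_denseSeq (paths n)).exists_mem_open ho
      ⟨⟨z, hz⟩, hz2⟩
    filter_upwards [eventually_ge_atTop k] with N hN
    refine lt_of_lt_of_le hk ?_
    have := Q218.BL.le_fm (fun i : Fin (N + 1) => weight n b (q n i)) ⟨k, by omega⟩
    exact this
  · intro a ha
    exact Eventually.of_forall fun N => (lppN_le hb N).trans_lt ha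

/-! ### The Gaussian structure -/

section

variable {Ω : Type u} [MeasurableSpace Ω] {P : Measure Ω} {B : ℕ → ℝ≥0 → ℝ≥0 → Ω → ℝ}

/-- weight of the path `z` in the environment at time `t` -/
def W (B : ℕ → ℝ≥0 → ℝ≥0 → Ω → ℝ) (n : ℕ) (t : ℝ≥0) (z : Fin (n + 2) → ℝ≥0) (ω : Ω) : ℝ :=
  weight n (fun i x => B i t x ω) z

/-- covariance kernel of path weights -/
noncomputable def K (n : ℕ) (z z' : Fin (n + 2) → ℝ≥0) : ℝ :=
  ∑ i : Fin (n + 1), (min (z i.succ : ℝ) (z' i.succ) - min (z i.succ : ℝ) (z' i.castSucc)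
    - min (z i.castSucc : ℝ) (z' i.succ) + min (z i.castSucc : ℝ) (z' i.castSucc))

lemma memB (h : IsDynamicalBrownianLines B P) (i : ℕ) (t x : ℝ≥0) : MemLp (B i t x) 2 P :=
  (h.gaussian.hasGaussianLaw_eval (i, t, x)).memLp_two

lemma covB (h : IsDynamicalBrownianLines B P) (i j : ℕ) (s t x y : ℝ≥0) :
    cov[B i s x, B j t y; P] =
      (if i = j then 1 else 0) * Real.exp (-|(s : ℝ) - (t : ℝ)|) * min (x : ℝ) (y : ℝ) := by
  have := h.gaussian.isProbabilityMeasure
  rw [covariance_eq_sub (memB h i s x) (memB h j t y), h.mean_zero, zero_mul, sub_zero,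
    ← h.covariance]
  rfl

lemma covW (h : IsDynamicalBrownianLines B P) (n : ℕ) (s t : ℝ≥0) (z z' : Fin (n + 2) → ℝ≥0) :
    cov[W B n s z, W B n t z'; P] = Real.exp (-|(s : ℝ) - (t : ℝ)|) * K n z z' := by
  have := h.gaussian.isProbabilityMeasure
  have hm : ∀ (t : ℝ≥0) (z : Fin (n + 2) → ℝ≥0) (i : Fin (n + 1)),
      MemLp (fun ω => B i t (z i.succ) ω - B i t (z i.castSucc) ω) 2 P :=
    fun t z i => (memB h i t _).sub (memB h i t _)
  change cov[fun ω => ∑ i : Fin (n + 1), (B i s (z i.succ) ω - B i s (z i.castSucc) ω),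
    fun ω => ∑ i : Fin (n + 1), (B i t (z' i.succ) ω - B i t (z' i.castSucc) ω); P] = _
  rw [covariance_fun_sum_fun_sum (fun i => hm s z i) (fun i => hm t z' i), K, Finset.mul_sum]
  refine Finset.sum_congr rfl fun i _ => ?_
  rw [Finset.sum_eq_single i]
  · rw [covariance_fun_sub_left (memB h _ _ _) (memB h _ _ _) (hm t z' i),
      covariance_fun_sub_right (memB h _ _ _) (memB h _ _ _) (memB h _ _ _),
      covariance_fun_sub_right (memB h _ _ _) (memB h _ _ _) (memB h _ _ _),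
      covB h, covB h, covB h, covB h]
    simp only [if_true]
    ring
  · intro j _ hj
    have hj' : ¬ ((i : ℕ) = (j : ℕ)) := fun e => hj (Fin.ext e).symm
    rw [covariance_fun_sub_left (memB h _ _ _) (memB h _ _ _) (hm t z' j),
      covariance_fun_sub_right (memB h _ _ _) (memB h _ _ _) (memB h _ _ _),
      covariance_fun_sub_right (memB h _ _ _) (memB h _ _ _) (memB h _ _ _),
      covB h, covB h, covB h, covB h]
    simp [hj']
  · intro hi
    exact absurd (Finset.mem_univ i) hi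

lemma telescope {m : ℕ} (f : Fin (m + 1) → ℝ) :
    ∑ i : Fin m, (f i.succ - f i.castSucc) = f (Fin.last m) - f 0 := by
  rw [Finset.sum_sub_distrib]
  have h1 := Fin.sum_univ_succ f
  have h2 := Fin.sum_univ_castSucc f
  linarith

lemma K_self {n : ℕ} {z : Fin (n + 2) → ℝ≥0} (hz : z ∈ paths n) : K n z z = n := by
  have h1 : ∀ i : Fin (n + 1), (min (z i.succ : ℝ) (z i.succ) - min (z i.succ : ℝ) (z i.castSucc)
    - min (z i.castSucc : ℝ) (z i.succ) + min (z i.castSucc : ℝ) (z i.castSucc)) =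
      (z i.succ : ℝ) - z i.castSucc := by
    intro i
    have hm : (z i.castSucc : ℝ) ≤ z i.succ :=
      NNReal.coe_le_coe.2 (hz.1 (Fin.castSucc_lt_succ).le)
    rw [min_self, min_self, min_eq_right hm, min_eq_left hm]
    ring
  rw [K, Finset.sum_congr rfl fun i _ => h1 i, telescope (fun i => (z i : ℝ)), hz.2.1, hz.2.2]
  simp

omit [MeasurableSpace Ω] in
/-- each path weight is a linear function of finitely many values of the field -/
lemma exists_lin (B : ℕ → ℝ≥0 → ℝ≥0 → Ω → ℝ) (n : ℕ) (t : ℝ≥0) (z : Fin (n + 2) → ℝ≥0) :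
    ∃ I : Finset (ℕ × ℝ≥0 × ℝ≥0), ∃ L : (I → ℝ) →L[ℝ] ℝ, ∀ ω,
      W B n t z ω = L (I.restrict (fun p : ℕ × ℝ≥0 × ℝ≥0 => B p.1 p.2.1 p.2.2 ω)) := by
  classical
  let I : Finset (ℕ × ℝ≥0 × ℝ≥0) :=
    (Finset.univ.image fun i : Fin (n + 1) => ((i : ℕ), t, z i.succ)) ∪
      (Finset.univ.image fun i : Fin (n + 1) => ((i : ℕ), t, z i.castSucc))
  have h1 : ∀ i : Fin (n + 1), ((i : ℕ), t, z i.succ) ∈ I := fun i =>
    Finset.mem_union_left _ (Finset.mem_image_of_mem _ (Finset.mem_univ i))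
  have h2 : ∀ i : Fin (n + 1), ((i : ℕ), t, z i.castSucc) ∈ I := fun i =>
    Finset.mem_union_right _ (Finset.mem_image_of_mem
      (fun i : Fin (n + 1) => ((i : ℕ), t, z i.castSucc)) (Finset.mem_univ i))
  refine ⟨I, ∑ i : Fin (n + 1), (ContinuousLinearMap.proj (R := ℝ) (φ := fun _ : I => ℝ)
    ⟨_, h1 i⟩ - ContinuousLinearMap.proj (R := ℝ) (φ := fun _ : I => ℝ) ⟨_, h2 i⟩), ?_⟩
  intro ω
  rw [sum_apply]
  rfl

lemma gauss_pair (h : IsDynamicalBrownianLines B P) (n N : ℕ) (s t : ℝ≥0) :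
    HasGaussianLaw (fun ω => ((fun i : Fin (N + 1) => W B n s (q n i) ω),
      (fun i : Fin (N + 1) => W B n t (q n i) ω))) P := by
  have hY : IsGaussianProcess (fun (a : Fin (N + 1) ⊕ Fin (N + 1)) (ω : Ω) =>
      Sum.elim (fun i : Fin (N + 1) => W B n s (q n i) ω)
        (fun i : Fin (N + 1) => W B n t (q n i) ω) a) P := by
    refine h.gaussian.of_isGaussianProcess ?_
    rintro (i | i)
    · exact exists_lin B n s (q n i)
    · exact exists_lin B n t (q n i)
  have h1 := hY.hasGaussianLaw Finset.univ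
  let U : Finset (Fin (N + 1) ⊕ Fin (N + 1)) := Finset.univ
  let L : (U → ℝ) →L[ℝ] ((Fin (N + 1) → ℝ) × (Fin (N + 1) → ℝ)) :=
    (ContinuousLinearMap.pi fun i => ContinuousLinearMap.proj (R := ℝ) (φ := fun _ : U => ℝ)
      ⟨Sum.inl i, Finset.mem_univ _⟩).prod
    (ContinuousLinearMap.pi fun i => ContinuousLinearMap.proj (R := ℝ) (φ := fun _ : U => ℝ)
      ⟨Sum.inr i, Finset.mem_univ _⟩)
  exact h1.map L

lemma mean_W (h : IsDynamicalBrownianLines B P) (n : ℕ) (t : ℝ≥0) (z : Fin (n + 2) → ℝ≥0) :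
    P[W B n t z] = 0 := by
  have := h.gaussian.isProbabilityMeasure
  have hi : ∀ i x, Integrable (B i t x) P := fun i x => (memB h i t x).integrable (by norm_num)
  change ∫ ω, ∑ i : Fin (n + 1), (B i t (z i.succ) ω - B i t (z i.castSucc) ω) ∂P = 0
  have hs : ∀ i : Fin (n + 1), Integrable
      (fun ω => B i t (z i.succ) ω - B i t (z i.castSucc) ω) P :=
    fun i => (hi i _).sub (hi i _)
  rw [integral_finsetSum _ fun i _ => hs i]
  apply Finset.sum_eq_zero
  intro i _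
  rw [integral_sub (hi _ _) (hi _ _), h.mean_zero, h.mean_zero, sub_zero]

lemma one_sided (h : IsDynamicalBrownianLines B P) {n : ℕ} (hn : 1 ≤ n) (N : ℕ) (s t : ℝ≥0)
    {φ : ℝ} (hφ : 0 < φ) (hφπ : φ < Real.pi) (hc : Real.cos φ = Real.exp (-|(s : ℝ) - (t : ℝ)|))
    {a : ℝ} (ha : 0 < a) :
    P.real {ω | a ≤ lppN n N (fun i x => B i t x ω) - lppN n N (fun i x => B i s x ω)} ≤
      Real.exp (-a ^ 2 / (2 * φ ^ 2 * n)) := by
  have hn' : (0 : ℝ) < n := by exact_mod_cast hn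
  refine Q218.BL.pair_tail (X := fun i => W B n s (q n i)) (Y := fun i => W B n t (q n i))
    (gauss_pair h n N s t) (fun i => mean_W h n s _) (fun i => mean_W h n t _) hφ hφπ hn' ha
    ?_ ?_ ?_
  · intro i j
    rw [covW h, covW h]
    simp
  · intro i j
    rw [covW h, covW h, hc]
    simp
  · intro i
    have := h.gaussian.isProbabilityMeasure
    rw [← covariance_self, covW h, K_self (q_mem n i)]
    · simp
    · exact ((gauss_pair h n N s t).fst.eval i).memLp_two.aemeasurable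

/-- the angle: `cos φ = e^{-t}` -/
lemma angle {t : ℝ} (ht : 0 < t) : ∃ φ : ℝ, 0 < φ ∧ φ < Real.pi ∧ Real.cos φ = Real.exp (-t) ∧
    2 * φ ^ 2 ≤ Real.pi ^ 2 * t := by
  have h1 : Real.exp (-t) < 1 := by
    rw [Real.exp_lt_one_iff]; linarith
  have h0 : 0 < Real.exp (-t) := Real.exp_pos _
  have hpi := Real.pi_pos
  refine ⟨Real.arccos (Real.exp (-t)), Real.arccos_pos.2 h1, ?_,
    Real.cos_arccos (by linarith) h1.le, ?_⟩
  · have := Real.arccos_le_pi_div_two.2 h0.le
    linarith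
  · set φ := Real.arccos (Real.exp (-t)) with hφ
    have hφ0 : 0 < φ := Real.arccos_pos.2 h1
    have hφ2 : φ ≤ Real.pi / 2 := Real.arccos_le_pi_div_two.2 h0.le
    have hc : Real.cos φ = Real.exp (-t) := Real.cos_arccos (by linarith) h1.le
    have h2 := Real.mul_le_sin (x := φ / 2) (by linarith) (by linarith)
    have h3 : Real.cos φ = 1 - 2 * Real.sin (φ / 2) ^ 2 := by
      have := Real.cos_two_mul (φ / 2)
      rw [show 2 * (φ / 2) = φ by ring] at this
      have h4 := Real.sin_sq_add_cos_sq (φ / 2)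
      rw [this]; linarith
    have h4 := Real.add_one_le_exp (-t)
    have h5 : Real.sin (φ / 2) ^ 2 ≤ t / 2 := by linarith
    have h6 : (2 / Real.pi * (φ / 2)) ^ 2 ≤ Real.sin (φ / 2) ^ 2 :=
      pow_le_pow_left₀ (by positivity) h2 2
    have h7 : (2 / Real.pi * (φ / 2)) ^ 2 = φ ^ 2 / Real.pi ^ 2 := by
      field_simp
    rw [h7] at h6
    have h8 : φ ^ 2 / Real.pi ^ 2 ≤ t / 2 := h6.trans h5
    rw [div_le_iff₀ (by positivity)] at h8
    linarith

lemma two_sided (h : IsDynamicalBrownianLines B P) {n : ℕ} (hn : 1 ≤ n) (N : ℕ) {t : ℝ≥0}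
    (ht : 0 < t) {a : ℝ} (ha : 0 < a) :
    P.real {ω | a ≤ |lppN n N (fun i x => B i t x ω) - lppN n N (fun i x => B i 0 x ω)|} ≤
      2 * Real.exp (-a ^ 2 / (Real.pi ^ 2 * (n * t))) := by
  have := h.gaussian.isProbabilityMeasure
  have hn' : (0 : ℝ) < n := by exact_mod_cast hn
  have ht' : (0 : ℝ) < t := by exact_mod_cast ht
  obtain ⟨φ, hφ, hφπ, hc, hb⟩ := angle ht'
  have hpi := Real.pi_pos
  have e1 : Real.exp (-a ^ 2 / (2 * φ ^ 2 * n)) ≤
      Real.exp (-a ^ 2 / (Real.pi ^ 2 * (n * t))) := by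
    apply Real.exp_le_exp.2
    rw [neg_div, neg_div, neg_le_neg_iff]
    apply div_le_div_of_nonneg_left (by positivity) (by positivity)
    nlinarith
  have o1 := one_sided h hn N 0 t hφ hφπ (by rw [hc]; simp) ha
  have o2 := one_sided h hn N t 0 hφ hφπ (by rw [hc]; simp) ha
  have hsub : {ω | a ≤ |lppN n N (fun i x => B i t x ω) - lppN n N (fun i x => B i 0 x ω)|} ⊆
      {ω | a ≤ lppN n N (fun i x => B i t x ω) - lppN n N (fun i x => B i 0 x ω)} ∪
      {ω | a ≤ lppN n N (fun i x => B i 0 x ω) - lppN n N (fun i x => B i t x ω)} := by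
    intro ω hω
    have hω' : a ≤ |lppN n N (fun i x => B i t x ω) - lppN n N (fun i x => B i 0 x ω)| := hω
    rcases le_abs.1 hω' with h1 | h1
    · exact Or.inl h1
    · right
      have : a ≤ lppN n N (fun i x => B i 0 x ω) - lppN n N (fun i x => B i t x ω) := by linarith
      exact this
  calc _ ≤ _ := measureReal_mono hsub
    _ ≤ _ := measureReal_union_le _ _
    _ ≤ _ := add_le_add o1 o2
    _ ≤ _ := by linarith

lemma aem (h : IsDynamicalBrownianLines B P) (n N : ℕ) (t : ℝ≥0) :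
    AEMeasurable (fun ω => lppN n N (fun i x => B i t x ω)) P :=
  Q218.BL.measurable_fm.comp_aemeasurable (gauss_pair h n N t t).fst.aemeasurable

/-- **The Gaussian tail bound.** -/
theorem tail (h : IsDynamicalBrownianLines B P) {n : ℕ} (hn : 1 ≤ n) {t : ℝ≥0}
    (ht : 0 < t) {a : ℝ} (ha : 0 < a) :
    P.real {ω | a ≤ |lpp n (fun i x => B i t x ω) - lpp n (fun i x => B i 0 x ω)|} ≤
      2 * Real.exp (-a ^ 2 / (Real.pi ^ 2 * (n * t))) := by
  have := h.gaussian.isProbabilityMeasure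
  have hn' : (0 : ℝ) < n := by exact_mod_cast hn
  have ht' : (0 : ℝ) < t := by exact_mod_cast ht
  set f : ℕ → Ω → ℝ := fun N ω =>
    lppN n N (fun i x => B i t x ω) - lppN n N (fun i x => B i 0 x ω) with hf
  set g : Ω → ℝ := fun ω => lpp n (fun i x => B i t x ω) - lpp n (fun i x => B i 0 x ω) with hg
  have hcont : ∀ᵐ ω ∂P, ∀ i, Continuous (fun x => B i t x ω) ∧ Continuous (fun x => B i 0 x ω) := by
    rw [ae_all_iff]
    intro i
    filter_upwards [h.continuous_paths i t, h.continuous_paths i 0] with ω h1 h2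
    exact ⟨h1, h2⟩
  have hae : ∀ᵐ ω ∂P, Tendsto (fun N => f N ω) atTop (𝓝 (g ω)) := by
    filter_upwards [hcont] with ω hω
    exact (tendsto_lppN (n := n) (b := fun i x => B i t x ω) fun i => (hω i).1).sub
      (tendsto_lppN (n := n) (b := fun i x => B i 0 x ω) fun i => (hω i).2)
  have hfm : ∀ N, AEStronglyMeasurable (f N) P := fun N =>
    ((aem h n N t).sub (aem h n N 0)).aestronglyMeasurable
  have hT := tendstoInMeasure_of_tendsto_ae hfm hae
  have key : ∀ δ : ℝ, 0 < δ → δ < a →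
      P.real {ω | a ≤ |g ω|} ≤ 2 * Real.exp (-(a - δ) ^ 2 / (Real.pi ^ 2 * (n * t))) := by
    intro δ hδ hδa
    have h1 := hT (ENNReal.ofReal δ) (ENNReal.ofReal_pos.2 hδ)
    have h2 : Tendsto (fun N => P.real {ω | ENNReal.ofReal δ ≤ edist (f N ω) (g ω)}) atTop
        (𝓝 0) := by
      have := (ENNReal.tendsto_toReal (a := 0) (by simp)).comp h1
      simpa [Function.comp_def, Measure.real] using this
    have h3 : Tendsto (fun N => 2 * Real.exp (-(a - δ) ^ 2 / (Real.pi ^ 2 * (n * t))) +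
        P.real {ω | ENNReal.ofReal δ ≤ edist (f N ω) (g ω)}) atTop
        (𝓝 (2 * Real.exp (-(a - δ) ^ 2 / (Real.pi ^ 2 * (n * t))) + 0)) :=
      tendsto_const_nhds.add h2
    rw [add_zero] at h3
    refine ge_of_tendsto' h3 fun N => ?_
    have hsub : {ω | a ≤ |g ω|} ⊆ {ω | a - δ ≤ |f N ω|} ∪
        {ω | ENNReal.ofReal δ ≤ edist (f N ω) (g ω)} := by
      intro ω hω
      have hω' : a ≤ |g ω| := hω
      by_cases h4 : a - δ ≤ |f N ω|
      · exact Or.inl h4
      · right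
        have h5 : δ ≤ |f N ω - g ω| := by
          have h6 := abs_sub_abs_le_abs_sub (g ω) (f N ω)
          rw [abs_sub_comm (g ω) (f N ω)] at h6
          push Not at h4
          linarith
        have h7 : ENNReal.ofReal δ ≤ edist (f N ω) (g ω) := by
          rw [edist_dist, Real.dist_eq]
          exact ENNReal.ofReal_le_ofReal h5
        exact h7
    calc _ ≤ _ := measureReal_mono hsub
      _ ≤ _ := measureReal_union_le _ _
      _ ≤ _ := add_le_add (two_sided h hn N ht (by linarith)) le_rfl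
  have hlim : Tendsto (fun δ : ℝ => 2 * Real.exp (-(a - δ) ^ 2 / (Real.pi ^ 2 * (n * t))))
      (𝓝[>] 0) (𝓝 (2 * Real.exp (-(a - 0) ^ 2 / (Real.pi ^ 2 * (n * t))))) := by
    apply Tendsto.mono_left _ nhdsWithin_le_nhds
    apply Continuous.tendsto
    fun_prop
  rw [sub_zero] at hlim
  refine ge_of_tendsto hlim ?_
  filter_upwards [Ioo_mem_nhdsGT ha] with δ hδ
  exact key δ hδ.1 hδ.2

end

lemma poly_bound (k : ℝ) (hk : 0 < k) : ∃ C : ℝ, ∀ α : ℝ, 0 < α →
    2 * Real.exp (-α ^ 2 / Real.pi ^ 2) ≤ C * α ^ (-k) := by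
  obtain ⟨m, hm⟩ := exists_nat_ge k
  refine ⟨2 * (1 + (Real.pi ^ 2) ^ m * m.factorial), fun α hα => ?_⟩
  have hpi := Real.pi_pos
  have hak : 0 < α ^ k := Real.rpow_pos_of_pos hα k
  rw [Real.rpow_neg hα.le, ← div_eq_mul_inv, le_div_iff₀ hak, mul_assoc]
  apply mul_le_mul_of_nonneg_left _ (by norm_num)
  rcases le_total α 1 with h1 | h1
  · have e1 : Real.exp (-α ^ 2 / Real.pi ^ 2) ≤ 1 := by
      apply Real.exp_le_one_iff.2
      rw [neg_div]
      have : 0 ≤ α ^ 2 / Real.pi ^ 2 := by positivity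
      linarith
    have e2 : α ^ k ≤ 1 := Real.rpow_le_one hα.le h1 hk.le
    have e3 : 0 ≤ (Real.pi ^ 2) ^ m * (m.factorial : ℝ) := by positivity
    have e4 : Real.exp (-α ^ 2 / Real.pi ^ 2) * α ^ k ≤ 1 * 1 :=
      mul_le_mul e1 e2 hak.le (by norm_num)
    linarith
  · have e1 : α ^ k ≤ (α ^ 2) ^ m := by
      rw [← pow_mul, ← Real.rpow_natCast α (2 * m)]
      apply Real.rpow_le_rpow_of_exponent_le h1
      push_cast
      have : (0 : ℝ) ≤ m := by positivity
      linarith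
    have e2 := Real.pow_div_factorial_le_exp (α ^ 2 / Real.pi ^ 2) (by positivity) m
    have e3 : (α ^ 2) ^ m ≤ (Real.pi ^ 2) ^ m * m.factorial * Real.exp (α ^ 2 / Real.pi ^ 2) := by
      have hf : (0 : ℝ) < m.factorial := by exact_mod_cast Nat.factorial_pos m
      rw [div_pow, div_div, div_le_iff₀ (by positivity)] at e2
      linarith
    have e4 : Real.exp (-α ^ 2 / Real.pi ^ 2) * Real.exp (α ^ 2 / Real.pi ^ 2) = 1 := by
      rw [← Real.exp_add, neg_div, neg_add_cancel, Real.exp_zero]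
    have hE := Real.exp_pos (-α ^ 2 / Real.pi ^ 2)
    calc Real.exp (-α ^ 2 / Real.pi ^ 2) * α ^ k
        ≤ Real.exp (-α ^ 2 / Real.pi ^ 2) *
          ((Real.pi ^ 2) ^ m * m.factorial * Real.exp (α ^ 2 / Real.pi ^ 2)) :=
          mul_le_mul_of_nonneg_left (e1.trans e3) hE.le
      _ = (Real.pi ^ 2) ^ m * m.factorial *
          (Real.exp (-α ^ 2 / Real.pi ^ 2) * Real.exp (α ^ 2 / Real.pi ^ 2)) := by ring
      _ = (Real.pi ^ 2) ^ m * m.factorial := by rw [e4, mul_one]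
      _ ≤ 1 + (Real.pi ^ 2) ^ m * m.factorial := by linarith

/-- **Q1 of MP_29ad01, in the affirmative, with a Gaussian tail and for all times.** -/
theorem result :
    (∀ (Ω : Type u) [MeasurableSpace Ω] (P : Measure Ω) (B : ℕ → ℝ≥0 → ℝ≥0 → Ω → ℝ),
      IsDynamicalBrownianLines B P →
      ∀ n : ℕ, 1 ≤ n → ∀ t : ℝ≥0, 0 < t → ∀ α : ℝ, 0 < α →
      P.real {ω | α * √(n * t) ≤
        |lpp n (fun i x => B i t x ω) - lpp n (fun i x => B i 0 x ω)|} ≤
        2 * Real.exp (-α ^ 2 / Real.pi ^ 2)) ∧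
    (∀ k : ℝ, 0 < k → ∃ C : ℝ,
      ∀ (Ω : Type u) [MeasurableSpace Ω] (P : Measure Ω) (B : ℕ → ℝ≥0 → ℝ≥0 → Ω → ℝ),
      IsDynamicalBrownianLines B P →
      ∀ n : ℕ, 1 ≤ n → ∀ t : ℝ≥0, 0 < t → (t : ℝ) ≤ (n : ℝ) ^ (-(1 : ℝ) / 3) →
      ∀ α : ℝ, 0 < α →
      P.real {ω | α * √(n * t) ≤
        |lpp n (fun i x => B i t x ω) - lpp n (fun i x => B i 0 x ω)|} ≤ C * α ^ (-k)) := by
  have main : ∀ (Ω : Type u) [MeasurableSpace Ω] (P : Measure Ω) (B : ℕ → ℝ≥0 → ℝ≥0 → Ω → ℝ),
      IsDynamicalBrownianLines B P →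
      ∀ n : ℕ, 1 ≤ n → ∀ t : ℝ≥0, 0 < t → ∀ α : ℝ, 0 < α →
      P.real {ω | α * √(n * t) ≤
        |lpp n (fun i x => B i t x ω) - lpp n (fun i x => B i 0 x ω)|} ≤
        2 * Real.exp (-α ^ 2 / Real.pi ^ 2) := by
    intro Ω _ P B h n hn t ht α hα
    have hn' : (0 : ℝ) < n := by exact_mod_cast hn
    have ht' : (0 : ℝ) < t := by exact_mod_cast ht
    have hnt : (0 : ℝ) < n * t := mul_pos hn' ht'
    have := tail h hn ht (a := α * √(n * t)) (mul_pos hα (Real.sqrt_pos.2 hnt))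
    have e : -(α * √(n * t)) ^ 2 / (Real.pi ^ 2 * (n * t)) = -α ^ 2 / Real.pi ^ 2 := by
      rw [mul_pow, Real.sq_sqrt hnt.le]
      field_simp
    rwa [e] at this
  refine ⟨main, ?_⟩
  intro k hk
  obtain ⟨C, hC⟩ := poly_bound k hk
  exact ⟨C, fun Ω _ P B h n hn t ht _ α hα => (main Ω P B h n hn t ht α hα).trans (hC α hα)⟩

end Pool.Agent.Results.MP_29ad01_pr.GaussianTail
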